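import Pool.Agent.T2h19.AP.Stm2

/-!
# AP_CPR: reduction by the stabilizer of the cyclic vector
-/

set_option autoImplicit false

open MvPolynomial Pool.Agent.T2h19.AP

namespace Pool.Agent.T2h21.AP

/-- `detV x y v` as a linear function of `x ∧ y` -/
noncomputable def lV (v : Fin 3 → ℂ) (z : I4 → ℂ) : ℂ :=
  ∑ a : Fin 3, ∑ b : Fin 3, v a * v b *
    (v 0 * z ((1, a), (2, b)) + v 1 * z ((2, a), (0, b)) + v 2 * z ((0, a), (1, b)))

/-- `detF x y f` as a linear function of `x ∧ y` -/
noncomputable def lF (f : Fin 3 → ℂ) (z : I4 → ℂ) : ℂ :=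
  ∑ a : Fin 3, ∑ b : Fin 3, f a * f b *
    (f 0 * z ((a, 1), (b, 2)) + f 1 * z ((a, 2), (b, 0)) + f 2 * z ((a, 0), (b, 1)))

theorem lV_smul (v : Fin 3 → ℂ) (t : ℂ) (z : I4 → ℂ) : lV v (t • z) = t * lV v z := by
  unfold lV
  simp only [Pi.smul_apply, smul_eq_mul, Finset.mul_sum]
  refine Finset.sum_congr rfl fun a _ => Finset.sum_congr rfl fun b _ => ?_
  ring

theorem lF_smul (v : Fin 3 → ℂ) (t : ℂ) (z : I4 → ℂ) : lF v (t • z) = t * lF v z := by
  unfold lF
  simp only [Pi.smul_apply, smul_eq_mul, Finset.mul_sum]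
  refine Finset.sum_congr rfl fun a _ => Finset.sum_congr rfl fun b _ => ?_
  ring

theorem lV_wedge (v : Fin 3 → ℂ) (x y : M3) : lV v (wedge x y) = detV x y v := by
  unfold lV detV wedge
  rw [Matrix.det_fin_three]
  simp only [Fin.sum_univ_three, Matrix.of_apply, Matrix.mulVec, dotProduct, Matrix.cons_val_zero,
    Matrix.cons_val_one, Matrix.cons_val]
  ring

theorem lF_wedge (v : Fin 3 → ℂ) (x y : M3) : lF v (wedge x y) = detF x y v := by
  unfold lF detF wedge
  rw [Matrix.det_fin_three]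
  simp only [Fin.sum_univ_three, Matrix.of_apply, Matrix.vecMul, dotProduct, Matrix.cons_val_zero,
    Matrix.cons_val_one, Matrix.cons_val]
  ring

theorem detV_tl (x y : M3) (v : Fin 3 → ℂ) : detV (tl x) (tl y) v = detV x y v := by
  unfold detV tl
  rw [Matrix.det_fin_three, Matrix.det_fin_three]
  simp only [Fin.sum_univ_three, Matrix.of_apply, Matrix.mulVec, dotProduct, Matrix.cons_val_zero,
    Matrix.cons_val_one, Matrix.cons_val, Matrix.sub_apply, Matrix.scalar_apply,
    Matrix.diagonal_apply]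
  simp
  ring

theorem detF_tl (x y : M3) (v : Fin 3 → ℂ) : detF (tl x) (tl y) v = detF x y v := by
  unfold detF tl
  rw [Matrix.det_fin_three, Matrix.det_fin_three]
  simp only [Fin.sum_univ_three, Matrix.of_apply, Matrix.vecMul, dotProduct, Matrix.cons_val_zero,
    Matrix.cons_val_one, Matrix.cons_val, Matrix.sub_apply, Matrix.scalar_apply,
    Matrix.diagonal_apply]
  simp
  ring

theorem detV_conj (h h' : M3) (hh : h * h' = 1) (x y : M3) (v : Fin 3 → ℂ) :
    detV (h * x * h') (h * y * h') v = h.det * detV x y (h'.mulVec v) := by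
  unfold detV
  have e : (Matrix.of ![v, (h * x * h').mulVec v, (h * y * h').mulVec v] : M3) =
      Matrix.of ![h'.mulVec v, x.mulVec (h'.mulVec v), y.mulVec (h'.mulVec v)] * h.transpose := by
    ext i j
    fin_cases i
    · have h1 : h.mulVec (h'.mulVec v) = v := by
        rw [Matrix.mulVec_mulVec, hh, Matrix.one_mulVec]
      have h2 := congrFun h1 j
      simp only [Matrix.mulVec, dotProduct] at h2
      simp only [Matrix.mul_apply, Matrix.of_apply, Matrix.transpose_apply, Matrix.mulVec,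
        dotProduct]
      simp only [Fin.zero_eta, Matrix.cons_val_zero]
      rw [← h2]
      refine Finset.sum_congr rfl fun i _ => ?_
      exact mul_comm _ _
    · have h1 : (h * x * h').mulVec v = h.mulVec (x.mulVec (h'.mulVec v)) := by
        rw [Matrix.mulVec_mulVec, Matrix.mulVec_mulVec]
      have h2 := congrFun h1 j
      simp only [Fin.mk_one, Matrix.of_apply, Matrix.cons_val_one, Matrix.cons_val_zero,
        Matrix.mul_apply, Matrix.transpose_apply]
      rw [h2]
      simp only [Matrix.mulVec, dotProduct]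
      refine Finset.sum_congr rfl fun i _ => ?_
      ring
    · have h1 : (h * y * h').mulVec v = h.mulVec (y.mulVec (h'.mulVec v)) := by
        rw [Matrix.mulVec_mulVec, Matrix.mulVec_mulVec]
      have h2 := congrFun h1 j
      simp only [Fin.reduceFinMk, Matrix.of_apply, Matrix.cons_val,
        Matrix.mul_apply, Matrix.transpose_apply]
      rw [h2]
      simp only [Matrix.mulVec, dotProduct]
      refine Finset.sum_congr rfl fun i _ => ?_
      ring
  rw [e, Matrix.det_mul, Matrix.det_transpose, mul_comm]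

theorem detF_conj (h h' : M3) (hh : h * h' = 1) (x y : M3) (f : Fin 3 → ℂ) :
    detF (h * x * h') (h * y * h') f = h'.det * detF x y (Matrix.vecMul f h) := by
  unfold detF
  have e : (Matrix.of ![f, Matrix.vecMul f (h * x * h'), Matrix.vecMul f (h * y * h')] : M3) =
      Matrix.of ![Matrix.vecMul f h, Matrix.vecMul (Matrix.vecMul f h) x,
        Matrix.vecMul (Matrix.vecMul f h) y] * h' := by
    ext i j
    rw [Matrix.mul_apply]
    fin_cases i
    · have h1 : Matrix.vecMul (Matrix.vecMul f h) h' = f := by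
        rw [Matrix.vecMul_vecMul, hh, Matrix.vecMul_one]
      exact (congrFun h1 j).symm
    · have h1 : Matrix.vecMul f (h * x * h') =
          Matrix.vecMul (Matrix.vecMul (Matrix.vecMul f h) x) h' := by
        rw [Matrix.vecMul_vecMul, Matrix.vecMul_vecMul, mul_assoc]
      exact congrFun h1 j
    · have h1 : Matrix.vecMul f (h * y * h') =
          Matrix.vecMul (Matrix.vecMul (Matrix.vecMul f h) y) h' := by
        rw [Matrix.vecMul_vecMul, Matrix.vecMul_vecMul, mul_assoc]
      exact congrFun h1 j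
  rw [e, Matrix.det_mul, mul_comm]

theorem detV_e0 (u : Fin 6 → ℂ) (v : Fin 3 → ℂ) (hv : ∀ i, v i = if i = 0 then 1 else 0) :
    detV (mA u) (mB u) v = 1 := by
  unfold detV mA mB
  rw [Matrix.det_fin_three]
  simp only [Fin.sum_univ_three, Matrix.of_apply, Matrix.mulVec, dotProduct, Matrix.cons_val_zero,
    Matrix.cons_val_one, Matrix.cons_val, hv]
  simp

/-- The polynomials which give the parameters of the transformed plane. -/
noncomputable def PP (h h' : M3) (j : Fin 6) : MvPolynomial (Fin 6) ℂ :=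
  C (h.det)⁻¹ * pull φ0 (form (L0 j.succ ∘ₗ ad h h'))

theorem eval_PP (h h' : M3) (j : Fin 6) (u : Fin 6 → ℂ) :
    eval u (PP h h' j) = (h.det)⁻¹ * L0 j.succ (ad h h' (ev φ0 u)) := by
  unfold PP
  rw [map_mul, eval_C, eval_pull, eval_form]
  rfl

/-- The map `u ↦ P u`. -/
noncomputable def pp (h h' : M3) (u : Fin 6 → ℂ) : Fin 6 → ℂ := fun j => eval u (PP h h' j)

theorem trace_tl (x : M3) : (tl x).trace = 0 := by
  unfold tl
  rw [Matrix.trace_sub]
  simp [Matrix.trace, Fin.sum_univ_three]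

theorem tl_comm (x y : M3) (h : x * y = y * x) : tl x * tl y = tl y * tl x := by
  unfold tl
  have h1 : ∀ (a : ℂ) (z : M3), Commute (Matrix.scalar (Fin 3) a) z :=
    fun a z => (Matrix.scalar_comm a (fun r => mul_comm _ _) z)
  have h2 : Commute x y := h
  exact ((h2.sub_right (h1 _ x).symm).sub_left (h1 _ _))

theorem det_ne {h h' : M3} (hh : h * h' = 1) : h.det ≠ 0 := by
  intro h0
  have := congrArg Matrix.det hh
  rw [Matrix.det_mul, h0, zero_mul, Matrix.det_one] at this
  exact zero_ne_one this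

theorem key (h1 : S_EVA) (h2 : S_NRM) (h3 : S_ADW) (h4 : S_QAD) {h h' : M3}
    (hh : h * h' = 1) (hh' : h' * h = 1) (he : ∀ i, h' i 0 = if i = 0 then 1 else 0)
    (u : Fin 6 → ℂ) : ad h h' (ev φ0 u) = h.det • ev φ0 (pp h h' u) := by
  obtain ⟨e1, e2, e3, e4, e5⟩ := h1
  obtain ⟨a1, -⟩ := h3
  have hL : L0 0 (ad h h' (ev φ0 u)) = h.det := by
    rw [(h4 h h' hh hh' u).1, detV_e0 u _ he, mul_one]
  have hd := det_ne hh
  have hw : ad h h' (ev φ0 u) = wedge (h * tl (mA u) * h') (h * tl (mB u) * h') := by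
    rw [e1, a1]
  have htr : ∀ x : M3, x.trace = 0 → (h * x * h').trace = 0 := by
    intro x hx
    rw [Matrix.trace_mul_comm, ← mul_assoc, hh', one_mul, hx]
  have hcomm : ∀ x y : M3, x * y = y * x →
      (h * x * h') * (h * y * h') = (h * y * h') * (h * x * h') := by
    intro x y hxy
    have : ∀ a b : M3, (h * a * h') * (h * b * h') = h * (a * b) * h' := by
      intro a b
      calc (h * a * h') * (h * b * h') = h * a * (h' * h) * b * h' := by simp only [mul_assoc]
        _ = h * (a * b) * h' := by rw [hh', mul_one]; simp only [mul_assoc]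
    rw [this, this, hxy]
  have h5 := h2 _ _ (htr _ (trace_tl (mA u))) (htr _ (trace_tl (mB u)))
    (hcomm _ _ (tl_comm _ _ (e4 u))) (by rw [← hw, hL]; exact hd)
  rw [← hw, hL] at h5
  rw [h5]
  congr 1
  congr 1
  funext j
  unfold pp
  rw [eval_PP, div_eq_inv_mul]

theorem pp_pp (h1 : S_EVA) (h2 : S_NRM) (h3 : S_ADW) (h4 : S_QAD) {h h' : M3}
    (hh : h * h' = 1) (hh' : h' * h = 1) (he : ∀ i, h' i 0 = if i = 0 then 1 else 0)
    (he' : ∀ i, h i 0 = if i = 0 then 1 else 0)
    (u : Fin 6 → ℂ) : pp h' h (pp h h' u) = u := by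
  have k1 := key h1 h2 h3 h4 hh hh' he u
  have k2 := key h1 h2 h3 h4 hh' hh he' (pp h h' u)
  have k3 : ad h' h (ad h h' (ev φ0 u)) = ev φ0 u := by
    rw [h1.1, h3.1, h3.1]
    have : ∀ x : M3, h' * (h * x * h') * h = x := by
      intro x
      calc h' * (h * x * h') * h = (h' * h) * x * (h' * h) := by simp only [mul_assoc]
        _ = x := by rw [hh', one_mul, mul_one]
    rw [this, this]
  rw [k1, map_smul, k2, smul_smul] at k3
  have hd : h.det * h'.det = 1 := by rw [← Matrix.det_mul, hh, Matrix.det_one]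
  rw [hd, one_smul] at k3
  funext j
  have e3 := h1.2.2.1
  rw [← e3 (pp h' h (pp h h' u)) j, k3, e3]

theorem cV_pp (h1 : S_EVA) (h2 : S_NRM) (h3 : S_ADW) (h4 : S_QAD) (h5 : S_CEV) {h h' : M3}
    (hh : h * h' = 1) (hh' : h' * h = 1) (he : ∀ i, h' i 0 = if i = 0 then 1 else 0)
    (v : Fin 3 → ℂ) (u : Fin 6 → ℂ) :
    eval u (cV (h'.mulVec v)) = eval (pp h h' u) (cV v) := by
  have k1 := congrArg (lV v) (key h1 h2 h3 h4 hh hh' he u)
  rw [lV_smul, h1.1, h3.1, lV_wedge, h1.1, lV_wedge, detV_conj h h' hh, detV_tl, detV_tl] at k1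
  rw [(h5 _ _).1, (h5 _ _).1]
  exact mul_left_cancel₀ (det_ne hh) k1

theorem cF_pp (h1 : S_EVA) (h2 : S_NRM) (h3 : S_ADW) (h4 : S_QAD) (h5 : S_CEV) {h h' : M3}
    (hh : h * h' = 1) (hh' : h' * h = 1) (he : ∀ i, h' i 0 = if i = 0 then 1 else 0)
    (f : Fin 3 → ℂ) (u : Fin 6 → ℂ) :
    eval u (cF (Matrix.vecMul f h)) = h.det ^ 2 * eval (pp h h' u) (cF f) := by
  have k1 := congrArg (lF f) (key h1 h2 h3 h4 hh hh' he u)
  rw [lF_smul, h1.1, h3.1, lF_wedge, h1.1, lF_wedge, detF_conj h h' hh, detF_tl, detF_tl] at k1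
  rw [(h5 _ _).2, (h5 _ _).2]
  have hd : h.det * h'.det = 1 := by rw [← Matrix.det_mul, hh, Matrix.det_one]
  calc detF (mA u) (mB u) (Matrix.vecMul f h)
      = (h.det * h'.det) * detF (mA u) (mB u) (Matrix.vecMul f h) := by rw [hd, one_mul]
    _ = h.det * (h'.det * detF (mA u) (mB u) (Matrix.vecMul f h)) := by ring
    _ = _ := by rw [k1]; ring

theorem eval_aeval (P : Fin 6 → MvPolynomial (Fin 6) ℂ) (F : MvPolynomial (Fin 6) ℂ)
    (u : Fin 6 → ℂ) : eval u (aeval P F) = eval (fun j => eval u (P j)) F := by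
  rw [aeval_def, ← coe_eval₂Hom, ← RingHom.comp_apply]
  have : (eval u).comp (eval₂Hom (algebraMap ℂ (MvPolynomial (Fin 6) ℂ)) P) =
      (eval fun i => eval u (P i)) := by
    apply MvPolynomial.ringHom_ext
    · intro r
      simp [algebraMap_eq]
    · intro i
      simp
  rw [this]

theorem cpr_ (h1 : S_EVA) (h2 : S_NRM) (h3 : S_ADW) (h4 : S_QAD) (h5 : S_CEV) : S_CPR := by
  intro k k' hk hk' he v f hrel
  have he' : ∀ i, k' i 0 = if i = 0 then 1 else 0 := by
    intro i
    have h6 := congrFun (congrFun hk' i) 0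
    rw [Matrix.mul_apply] at h6
    simp only [he, mul_ite, mul_one, mul_zero, Finset.sum_ite_eq', Finset.mem_univ, if_true] at h6
    rw [h6, Matrix.one_apply]
  set Φ : MvPolynomial (Fin 6) ℂ →ₐ[ℂ] MvPolynomial (Fin 6) ℂ := aeval (PP k k') with hΦ
  set Ψ : MvPolynomial (Fin 6) ℂ →ₐ[ℂ] MvPolynomial (Fin 6) ℂ := aeval (PP k' k) with hΨ
  have c1 : ∀ F, Φ (Ψ F) = F := by
    intro F
    apply MvPolynomial.funext
    intro u
    rw [hΦ, eval_aeval, hΨ, eval_aeval]
    have := pp_pp h1 h2 h3 h4 hk hk' he' he u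
    exact congrArg (fun w => eval w F) this
  have c2 : ∀ F, Ψ (Φ F) = F := by
    intro F
    apply MvPolynomial.funext
    intro u
    rw [hΨ, eval_aeval, hΦ, eval_aeval]
    have := pp_pp h1 h2 h3 h4 hk' hk he he' u
    exact congrArg (fun w => eval w F) this
  have d1 : cV (k'.mulVec v) = Φ (cV v) := by
    apply MvPolynomial.funext
    intro u
    rw [cV_pp h1 h2 h3 h4 h5 hk hk' he' v u, hΦ, eval_aeval]
    rfl
  have d2 : cF (Matrix.vecMul f k) = C (k.det ^ 2) * Φ (cF f) := by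
    apply MvPolynomial.funext
    intro u
    rw [cF_pp h1 h2 h3 h4 h5 hk hk' he' f u, map_mul, eval_C, hΦ, eval_aeval]
    rfl
  rw [d1, d2]
  intro g hg1 hg2
  have hu : IsUnit (C (k.det ^ 2) : MvPolynomial (Fin 6) ℂ) :=
    (IsUnit.mk0 _ (pow_ne_zero 2 (det_ne hk))).map C
  have hg3 : g ∣ Φ (cF f) := (hu.dvd_mul_left).1 hg2
  have e1 : Ψ g ∣ cV v := by
    have := map_dvd Ψ hg1
    rwa [c2] at this
  have e2 : Ψ g ∣ cF f := by
    have := map_dvd Ψ hg3
    rwa [c2] at this
  have e3 := (hrel e1 e2).map Φ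
  rwa [c1] at e3

end Pool.Agent.T2h21.AP
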